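import Pool.Agent.Helper606.CA2.Defs

set_option autoImplicit false

namespace Pool.Agent.Helper606.CA
open Complex Set

theorem glue_lip {f g : ℝ → ℝ} {a K : ℝ} (hK : 0 ≤ K) (hf : ∀ x y, |f x - f y| ≤ K * |x - y|)
    (hg : ∀ x y, |g x - g y| ≤ K * |x - y|) (hf0 : ∀ x, a ≤ x → f x = 0)
    (hg0 : ∀ x, x ≤ a → g x = 0) (x y : ℝ) : |(f x + g x) - (f y + g y)| ≤ K * |x - y| := by
  have key : ∀ x y : ℝ, x ≤ y → |(f x + g x) - (f y + g y)| ≤ K * |x - y| := by
    intro x y hxy
    rcases le_total y a with h | h
    · rw [hg0 x (hxy.trans h), hg0 y h, add_zero, add_zero]; exact hf x y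
    · rcases le_total a x with h' | h'
      · rw [hf0 x h', hf0 y (h'.trans hxy), zero_add, zero_add]; exact hg x y
      · rw [hg0 x h', hf0 y h, add_zero, zero_add]
        have h1 := hf x a
        have h2 := hg a y
        rw [hf0 a le_rfl, sub_zero] at h1
        rw [hg0 a le_rfl, zero_sub, abs_neg] at h2
        have h3 : |f x - g y| ≤ |f x| + |g y| := abs_sub _ _
        have e1 : |x - a| = a - x := by rw [abs_of_nonpos (by linarith)]; ring
        have e2 : |a - y| = y - a := by rw [abs_of_nonpos (by linarith)]; ring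
        have e3 : |x - y| = y - x := by rw [abs_of_nonpos (by linarith)]; ring
        rw [e1] at h1
        rw [e2] at h2
        rw [e3]
        nlinarith
  rcases le_total x y with h | h
  · exact key x y h
  · rw [abs_sub_comm, abs_sub_comm x y]; exact key y x h

end Pool.Agent.Helper606.CA
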