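import Pool.Agent.Helper606.CA2.Defs

set_option autoImplicit false

namespace Pool.Agent.Helper606.CA
open Complex Set


theorem hat_lip (x y : ℝ) : |hat x - hat y| ≤ 2 * |x - y| := by
  unfold hat
  have h1 : |max 0 (1 - |2 * x - 1|) - max 0 (1 - |2 * y - 1|)| ≤
      |(1 - |2 * x - 1|) - (1 - |2 * y - 1|)| := by
    rw [max_comm 0, max_comm 0]
    exact abs_max_sub_max_le_abs _ _ _
  have h2 : (1 - |2 * x - 1|) - (1 - |2 * y - 1|) = -(|2 * x - 1| - |2 * y - 1|) := by ring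
  have h3 := abs_abs_sub_abs_le (2 * x - 1) (2 * y - 1)
  have h4 : (2 * x - 1) - (2 * y - 1) = 2 * (x - y) := by ring
  rw [h4, abs_mul, abs_two] at h3
  rw [h2, abs_neg] at h1
  exact h1.trans h3

end Pool.Agent.Helper606.CA
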