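import Pool.Agent.Helper606.CA2.Defs
import Pool.Agent.Helper606.CA2.P_GG_facts
import Pool.Agent.Helper606.CA3.P_glue_lip
import Pool.Agent.Helper606.CA3.P_hat_lip

set_option autoImplicit false

namespace Pool.Agent.Helper606.CA
open Complex Set


theorem cf_abs1 (j : ℕ) : |cf j| = 1 := by
  unfold cf
  split_ifs <;> simp

theorem GG_lip (n : ℕ) (x y : ℝ) : |GG n x - GG n y| ≤ 2 * |x - y| := by
  induction n generalizing x y with
  | zero => exact hat_lip x y
  | succ n ih =>
    have hp : (0:ℝ) < 5 ^ n := by positivity
    have key : ∀ m : ℕ, (∀ x y : ℝ,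
        |(∑ j ∈ Finset.range m, cf j * GG n (x - j * 5 ^ n)) -
          (∑ j ∈ Finset.range m, cf j * GG n (y - j * 5 ^ n))| ≤ 2 * |x - y|) ∧
        ∀ x : ℝ, (m : ℝ) * 5 ^ n ≤ x →
          (∑ j ∈ Finset.range m, cf j * GG n (x - j * 5 ^ n)) = 0 := by
      intro m
      induction m with
      | zero =>
        refine ⟨fun x y => ?_, fun x _ => by simp⟩
        simp
      | succ m ihm =>
        refine ⟨fun x y => ?_, fun x hx => ?_⟩
        · rw [Finset.sum_range_succ, Finset.sum_range_succ]
          exact glue_lip (f := fun x => ∑ j ∈ Finset.range m, cf j * GG n (x - j * 5 ^ n))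
            (g := fun x => cf m * GG n (x - m * 5 ^ n)) (a := (m : ℝ) * 5 ^ n) (K := 2)
            (by norm_num) ihm.1 (fun x y => by
              show |cf m * GG n (x - m * 5 ^ n) - cf m * GG n (y - m * 5 ^ n)| ≤ _
              rw [← mul_sub, abs_mul, cf_abs1, one_mul]
              have h := ih (x - m * 5 ^ n) (y - m * 5 ^ n)
              have e : x - m * 5 ^ n - (y - m * 5 ^ n) = x - y := by ring
              rw [e] at h
              exact h) ihm.2 (fun x hx => by
              show cf m * GG n (x - m * 5 ^ n) = 0
              rw [(GG_facts n).2.2.1 _ (by linarith), mul_zero]) x y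
        · rw [Finset.sum_range_succ]
          have hx' : ((m : ℝ) + 1) * 5 ^ n ≤ x := by
            have := hx
            push_cast at this
            exact this
          rw [ihm.2 x (by nlinarith), (GG_facts n).2.2.2.1 _ (by nlinarith), mul_zero, add_zero]
    exact (key 5).1 x y

end Pool.Agent.Helper606.CA
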