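import Pool.Agent.Helper606.CA2.Defs

set_option autoImplicit false

namespace Pool.Agent.Helper606.CA
open Complex Set


theorem holder_of_lip {f : ℝ → ℝ} {M K : ℝ} (hM : 0 ≤ M) (hK : 0 ≤ K)
    (hb : ∀ x y, |f x - f y| ≤ M) (hl : ∀ x y, |f x - f y| ≤ M * (K * |x - y|)) (x y : ℝ) :
    |f x - f y| ≤ M * (K ^ (1/50:ℝ) * |x - y| ^ (1/50:ℝ)) := by
  rw [← Real.mul_rpow hK (abs_nonneg _)]
  have hz : 0 ≤ K * |x - y| := mul_nonneg hK (abs_nonneg _)
  rcases le_or_gt 1 (K * |x - y|) with h1 | h1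
  · have h2 : (1:ℝ) ≤ (K * |x - y|) ^ (1/50:ℝ) := Real.one_le_rpow h1 (by norm_num)
    calc |f x - f y| ≤ M := hb x y
      _ = M * 1 := (mul_one M).symm
      _ ≤ M * (K * |x - y|) ^ (1/50:ℝ) := mul_le_mul_of_nonneg_left h2 hM
  · rcases hz.eq_or_lt with h0 | h0
    · have h3 := hl x y
      rw [← h0, mul_zero] at h3
      exact h3.trans (mul_nonneg hM (Real.rpow_nonneg hz _))
    · have h2 : K * |x - y| ≤ (K * |x - y|) ^ (1/50:ℝ) := by
        calc K * |x - y| = (K * |x - y|) ^ (1:ℝ) := (Real.rpow_one _).symm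
          _ ≤ (K * |x - y|) ^ (1/50:ℝ) :=
            Real.rpow_le_rpow_of_exponent_ge h0 h1.le (by norm_num)
      exact (hl x y).trans (mul_le_mul_of_nonneg_left h2 hM)

end Pool.Agent.Helper606.CA
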