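import Pool.Agent.Helper606.CA2.Defs
import Pool.Agent.Helper606.CA2.P_GG_facts
import Pool.Agent.Helper606.CA2.P_pq_facts
import Pool.Agent.Helper606.CA3.P_GG_lip
import Pool.Agent.Helper606.CA3.P_holder_of_lip

set_option autoImplicit false

namespace Pool.Agent.Helper606.CA
open Complex Set


theorem T_holder (j : ℕ) (u v : ℝ) :
    |etq j * GG j ((u - pq j) / wq j) - etq j * GG j ((v - pq j) / wq j)| ≤
      2 * ((9/10) * (128:ℝ)^(1/50:ℝ))^j * |u - v| ^ (1/50:ℝ) := by
  have hw : 0 < wq j := pq_facts.1 j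
  have he : 0 < etq j := (pq_facts.2.1 j).1
  have hK : (1 / wq j) = (128:ℝ) ^ j := by
    unfold wq
    rw [pow_mul, one_div, ← inv_pow]
    norm_num
  have hab : ∀ x, |GG j x| ≤ 1 := (GG_facts j).2.1
  have h := holder_of_lip (f := fun s => etq j * GG j ((s - pq j) / wq j)) (M := 2 * etq j)
    (K := 1 / wq j) (by positivity) (by positivity) (by
      intro x y
      show |etq j * GG j ((x - pq j) / wq j) - etq j * GG j ((y - pq j) / wq j)| ≤ 2 * etq j
      rw [← mul_sub, abs_mul, abs_of_pos he]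
      have h1 := abs_sub (GG j ((x - pq j) / wq j)) (GG j ((y - pq j) / wq j))
      have h2 := hab ((x - pq j) / wq j)
      have h3 := hab ((y - pq j) / wq j)
      nlinarith) (by
      intro x y
      show |etq j * GG j ((x - pq j) / wq j) - etq j * GG j ((y - pq j) / wq j)| ≤
        2 * etq j * (1 / wq j * |x - y|)
      rw [← mul_sub, abs_mul, abs_of_pos he]
      have h1 := GG_lip j ((x - pq j) / wq j) ((y - pq j) / wq j)
      have h2 : (x - pq j) / wq j - (y - pq j) / wq j = (x - y) / wq j := by ring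
      rw [h2, abs_div, abs_of_pos hw] at h1
      calc etq j * |GG j ((x - pq j) / wq j) - GG j ((y - pq j) / wq j)|
          ≤ etq j * (2 * (|x - y| / wq j)) := mul_le_mul_of_nonneg_left h1 he.le
        _ = 2 * etq j * (1 / wq j * |x - y|) := by ring) u v
  refine h.trans (le_of_eq ?_)
  have hp : ((128:ℝ) ^ j) ^ (1/50:ℝ) = ((128:ℝ) ^ (1/50:ℝ)) ^ j := by
    rw [← Real.rpow_natCast, ← Real.rpow_mul (by norm_num), mul_comm, Real.rpow_mul (by norm_num),
      Real.rpow_natCast]
  rw [hK, hp, mul_pow]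
  unfold etq
  ring

end Pool.Agent.Helper606.CA
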