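import Pool.Agent.Helper606.CA2.Defs
import Pool.Agent.Helper606.CA2.P_h2_bounds
import Pool.Agent.Helper606.CA2.P_kap2_per
import Pool.Agent.Helper606.CA2.P_dkap

set_option autoImplicit false

namespace Pool.Agent.Helper606.CA
open Complex Set


theorem dkap_bdd : (∃ M : ℝ, 0 ≤ M ∧ ∀ s, |deriv kap2 s| ≤ M) ∧
    ∀ s, deriv kap2 (s + 2 * h2) = deriv kap2 s := by
  have hper : ∀ s, deriv kap2 (s + 2 * h2) = deriv kap2 s := by
    intro s
    rw [← deriv_comp_add_const kap2 (2 * h2) s]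
    congr 1
    funext x
    exact kap2_per x
  refine ⟨?_, hper⟩
  have hpos : (0:ℝ) < 2 * h2 := by
    have := h2_bounds.1
    linarith
  obtain ⟨C, hC⟩ := (isCompact_Icc (a := (0:ℝ)) (b := 2 * h2)).exists_bound_of_continuousOn
    (dkap.2.continuousOn)
  refine ⟨max C 0, le_max_right _ _, fun s => ?_⟩
  have hP : Function.Periodic (deriv kap2) (2 * h2) := hper
  obtain ⟨y, hy, hys⟩ := hP.exists_mem_Ico₀ hpos s
  rw [hys]
  have := hC y ⟨hy.1, hy.2.le⟩
  rw [Real.norm_eq_abs] at this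
  exact this.trans (le_max_left _ _)

end Pool.Agent.Helper606.CA
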