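import Pool.Agent.Helper606.CA2.Defs
import Pool.Agent.Helper606.CA2.P_gg_low
import Pool.Agent.Helper606.CA2.P_gg_top
import Pool.Agent.Helper606.CA2.P_h2_bounds
import Pool.Agent.Helper606.CA2.P_kap2_even
import Pool.Agent.Helper606.CA2.P_kap2_low
import Pool.Agent.Helper606.CA2.P_kap2_top
import Pool.Agent.Helper606.CA2.P_kap2_hd

set_option autoImplicit false

namespace Pool.Agent.Helper606.CA
open Complex Set


theorem dkap_formula {s : ℝ} (h : |s| < 2 * h2 - 3/2) : deriv kap2 s = gg s - gg (-s) := by
  have hb := h2_bounds
  have hlt := abs_lt.mp h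
  by_cases h1 : |s| < 1
  · have h3 := abs_lt.mp h1
    have hev : kap2 =ᶠ[nhds s] fun _ => k0 := by
      filter_upwards [(isOpen_lt continuous_abs continuous_const).mem_nhds h1] with u hu
      exact kap2_low (le_of_lt hu)
    rw [hev.deriv_eq, deriv_const, gg_low (by linarith), gg_low (s := -s) (by linarith), sub_zero]
  · push Not at h1
    rcases le_total 0 s with hs | hs
    · rw [abs_of_nonneg hs] at h1
      rw [gg_low (s := -s) (by linarith), sub_zero]
      by_cases h4 : s < h2
      · exact (kap2_hd (by linarith) h4).deriv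
      · push Not at h4
        have hev : kap2 =ᶠ[nhds s] fun _ => f2 (3/2) := by
          filter_upwards [Ioo_mem_nhds (show (3/2:ℝ) < s by linarith) hlt.2] with u hu
          exact kap2_top hu.1.le hu.2.le
        rw [hev.deriv_eq, deriv_const, gg_top (by linarith)]
    · rw [abs_of_nonpos hs] at h1
      rw [gg_low (s := s) (by linarith), zero_sub]
      by_cases h4 : -s < h2
      · have h5 : HasDerivAt kap2 (gg (-s)) (-s) := kap2_hd (by linarith) h4
        have h6 : HasDerivAt (fun u => kap2 (-u)) (gg (-s) * (-1)) s :=
          HasDerivAt.comp (h₂ := kap2) (h := fun u : ℝ => -u) s h5 (hasDerivAt_neg s)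
        have h7 : (fun u => kap2 (-u)) = kap2 := by
          funext u; exact kap2_even u
        rw [h7] at h6
        rw [h6.deriv]; ring
      · push Not at h4
        have hev : kap2 =ᶠ[nhds s] fun _ => f2 (3/2) := by
          filter_upwards [Ioo_mem_nhds hlt.1 (show s < -(3/2:ℝ) by linarith)] with u hu
          rw [← kap2_even]
          exact kap2_top (by linarith [hu.2]) (by linarith [hu.1])
        rw [hev.deriv_eq, deriv_const, gg_top (s := -s) (by linarith), neg_zero]

end Pool.Agent.Helper606.CA
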