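import Pool.Agent.Helper606.CA2.Defs

set_option autoImplicit false

namespace Pool.Agent.Helper606.CA
open Complex Set


theorem r_lt : 0 < (9/10) * (128:ℝ)^(1/50:ℝ) ∧ (9/10) * (128:ℝ)^(1/50:ℝ) < 1 := by
  have h2 : (128:ℝ) < (10/9:ℝ)^(50:ℕ) := by norm_num
  have h3 : ((10/9:ℝ)^(50:ℕ))^(1/50:ℝ) = 10/9 := by
    rw [← Real.rpow_natCast, ← Real.rpow_mul (by norm_num)]
    norm_num
  have h1 : (128:ℝ)^(1/50:ℝ) < 10/9 := by
    calc (128:ℝ)^(1/50:ℝ) < ((10/9:ℝ)^(50:ℕ))^(1/50:ℝ) :=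
          Real.rpow_lt_rpow (by norm_num) h2 (by norm_num)
      _ = 10/9 := h3
  constructor
  · have : (0:ℝ) < (128:ℝ)^(1/50:ℝ) := Real.rpow_pos_of_pos (by norm_num) _
    linarith
  · linarith

end Pool.Agent.Helper606.CA
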