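import Pool.Agent.Helper606.CA2.Defs
import Pool.Agent.Helper606.CA2.P_hat_facts
import Pool.Agent.Helper606.CA2.P_GG_facts
import Pool.Agent.Helper606.CA2.P_k0_facts
import Pool.Agent.Helper606.CA2.P_pq_facts
import Pool.Agent.Helper606.CA3.P_hat_lip
import Pool.Agent.Helper606.CA3.P_r_lt
import Pool.Agent.Helper606.CA3.P_holder_of_lip
import Pool.Agent.Helper606.CA3.P_T_holder

set_option autoImplicit false

namespace Pool.Agent.Helper606.CA
open Complex Set


theorem gg_holder : ∃ K : ℝ, 0 ≤ K ∧ ∀ u v : ℝ, |gg u - gg v| ≤ K * |u - v| ^ (1/50:ℝ) := by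
  obtain ⟨hk0, hk1, -⟩ := k0_facts
  obtain ⟨hr0, hr1⟩ := r_lt
  have hsr : Summable (fun i : ℕ => 2 * ((9/10) * (128:ℝ)^(1/50:ℝ)) ^ (i + 130)) := by
    have := (summable_geometric_of_lt_one hr0.le hr1).mul_left
      (2 * ((9/10) * (128:ℝ)^(1/50:ℝ)) ^ 130)
    refine this.congr fun i => ?_
    rw [pow_add _ i 130]
    ring
  have hc : 0 ≤ (1 - k0) * (2 / k0) := mul_nonneg (by linarith) (by positivity)
  refine ⟨(1 - k0) * (2 / k0) * (2 * (1 / k0) ^ (1/50:ℝ)) +
    ∑' i : ℕ, 2 * ((9/10) * (128:ℝ)^(1/50:ℝ)) ^ (i + 130), ?_, ?_⟩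
  · exact add_nonneg (mul_nonneg hc (by positivity)) (tsum_nonneg fun i => by positivity)
  intro u v
  have hsT : ∀ u : ℝ, Summable (fun i : ℕ =>
      etq (i + 130) * GG (i + 130) ((u - pq (i + 130)) / wq (i + 130))) := by
    intro u
    refine Summable.of_norm_bounded (g := fun i : ℕ => (9/10:ℝ)^(i+130)) ?_ ?_
    · exact (summable_nat_add_iff 130).2 (summable_geometric_of_lt_one (by norm_num) (by norm_num))
    · intro i
      rw [Real.norm_eq_abs, abs_mul]
      have h1 : |etq (i+130)| = (9/10:ℝ)^(i+130) := by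
        rw [etq]
        exact abs_of_nonneg (by positivity)
      rw [h1]
      exact mul_le_of_le_one_right (by positivity) ((GG_facts (i+130)).2.1 _)
  have hH : |hat ((u - 1)/k0) - hat ((v-1)/k0)| ≤
      2 * ((1/k0)^(1/50:ℝ) * |u-v|^(1/50:ℝ)) := by
    refine holder_of_lip (f := fun u => hat ((u-1)/k0)) (by norm_num) (by positivity) ?_ ?_ u v
    · intro x y
      have h1 := (hat_facts.2.1 ((x-1)/k0))
      have h2 := (hat_facts.2.1 ((y-1)/k0))
      rw [abs_le]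
      constructor <;> linarith [h1.1, h1.2, h2.1, h2.2]
    · intro x y
      refine (hat_lip _ _).trans (le_of_eq ?_)
      have e : (x-1)/k0 - (y-1)/k0 = (1/k0) * (x - y) := by ring
      rw [e, abs_mul, abs_of_pos (by positivity : (0:ℝ) < 1/k0)]
  have hS : |(∑' i : ℕ, etq (i + 130) * GG (i + 130) ((u - pq (i + 130)) / wq (i + 130))) -
      ∑' i : ℕ, etq (i + 130) * GG (i + 130) ((v - pq (i + 130)) / wq (i + 130))| ≤
      (∑' i : ℕ, 2 * ((9/10) * (128:ℝ)^(1/50:ℝ)) ^ (i + 130)) * |u-v|^(1/50:ℝ) := by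
    rw [← (hsT u).tsum_sub (hsT v)]
    have h := hsr.hasSum.mul_right (|u-v|^(1/50:ℝ))
    exact tsum_of_norm_bounded h (fun i => by
      rw [Real.norm_eq_abs]
      exact T_holder (i+130) u v)
  have e : gg u - gg v = (1 - k0) * (2 / k0) * (hat ((u - 1)/k0) - hat ((v-1)/k0)) +
      ((∑' i : ℕ, etq (i + 130) * GG (i + 130) ((u - pq (i + 130)) / wq (i + 130))) -
      ∑' i : ℕ, etq (i + 130) * GG (i + 130) ((v - pq (i + 130)) / wq (i + 130))) := by
    unfold gg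
    ring
  rw [e]
  refine (abs_add_le _ _).trans ?_
  rw [abs_mul, abs_of_nonneg hc]
  have h5 := mul_le_mul_of_nonneg_left hH hc
  calc _ ≤ (1 - k0) * (2 / k0) * (2 * ((1/k0)^(1/50:ℝ) * |u-v|^(1/50:ℝ))) +
      (∑' i : ℕ, 2 * ((9/10) * (128:ℝ)^(1/50:ℝ)) ^ (i + 130)) * |u-v|^(1/50:ℝ) := add_le_add h5 hS
    _ = _ := by ring

end Pool.Agent.Helper606.CA
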