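import Pool.Agent.Helper606.CA2.Defs
import Pool.Agent.Helper606.CA2.P_h2_bounds
import Pool.Agent.Helper606.CA3.P_gg_holder
import Pool.Agent.Helper606.CA3.P_dkap_formula
import Pool.Agent.Helper606.CA3.P_dkap_bdd

set_option autoImplicit false

namespace Pool.Agent.Helper606.CA
open Complex Set


theorem dkap_holder : ∃ K : ℝ, ∀ s t : ℝ,
    |deriv kap2 s - deriv kap2 t| ≤ K * |s - t| ^ (1/50:ℝ) := by
  obtain ⟨K0, hK0, hK⟩ := gg_holder
  obtain ⟨⟨M, hM0, hM⟩, hper⟩ := dkap_bdd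
  have hh := h2_bounds.1
  have hd : 0 < h2 - 3/2 := by linarith
  have hdp : 0 < (h2 - 3/2) ^ (1/50:ℝ) := Real.rpow_pos_of_pos hd _
  have hP : Function.Periodic (deriv kap2) (2 * h2) := hper
  refine ⟨2 * K0 + 2 * M / (h2 - 3/2) ^ (1/50:ℝ), fun s t => ?_⟩
  have hst : 0 ≤ |s - t| ^ (1/50:ℝ) := Real.rpow_nonneg (abs_nonneg _) _
  rcases le_or_gt (h2 - 3/2) |s - t| with hc | hc
  · have h1 : (h2 - 3/2) ^ (1/50:ℝ) ≤ |s - t| ^ (1/50:ℝ) :=
      Real.rpow_le_rpow hd.le hc (by norm_num)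
    have h2' : |deriv kap2 s - deriv kap2 t| ≤ 2 * M := by
      have := abs_sub (deriv kap2 s) (deriv kap2 t)
      have e1 := hM s
      have e2 := hM t
      have e3 := abs_le.mp e1
      have e4 := abs_le.mp e2
      rw [abs_le]
      constructor <;> linarith [e3.1, e3.2, e4.1, e4.2]
    have h3 : 2 * M ≤ 2 * M / (h2 - 3/2) ^ (1/50:ℝ) * |s - t| ^ (1/50:ℝ) := by
      rw [div_mul_eq_mul_div, le_div_iff₀ hdp]
      exact mul_le_mul_of_nonneg_left h1 (by linarith)
    have h4 : 0 ≤ 2 * K0 * |s - t| ^ (1/50:ℝ) := by positivity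
    calc |deriv kap2 s - deriv kap2 t| ≤ 2 * M := h2'
      _ ≤ 2 * M / (h2 - 3/2) ^ (1/50:ℝ) * |s - t| ^ (1/50:ℝ) := h3
      _ ≤ _ := by rw [add_mul]; linarith
  · have hpos : 0 < 2 * h2 := by linarith
    set n : ℤ := round (s / (2 * h2)) with hn
    have hr : |s / (2 * h2) - n| ≤ 1 / 2 := abs_sub_round _
    have hs1 : |s - n * (2 * h2)| ≤ h2 := by
      have e : s - n * (2 * h2) = (s / (2 * h2) - n) * (2 * h2) := by
        field_simp
      rw [e, abs_mul, abs_of_pos hpos]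
      nlinarith
    have hs2 : |s - n * (2 * h2)| < 2 * h2 - 3/2 := by linarith
    have ht2 : |t - n * (2 * h2)| < 2 * h2 - 3/2 := by
      have e : t - n * (2 * h2) = (s - n * (2 * h2)) - (s - t) := by ring
      rw [e]
      have := abs_sub (s - n * (2 * h2)) (s - t)
      linarith
    have es : deriv kap2 s = deriv kap2 (s - n * (2 * h2)) := by
      have := hP.sub_zsmul_eq (x := s) n
      rw [zsmul_eq_mul] at this
      exact this.symm
    have et : deriv kap2 t = deriv kap2 (t - n * (2 * h2)) := by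
      have := hP.sub_zsmul_eq (x := t) n
      rw [zsmul_eq_mul] at this
      exact this.symm
    rw [es, et, dkap_formula hs2, dkap_formula ht2]
    have k1 := hK (s - n * (2 * h2)) (t - n * (2 * h2))
    have k2 := hK (-(s - n * (2 * h2))) (-(t - n * (2 * h2)))
    have a1 : (s - n * (2 * h2)) - (t - n * (2 * h2)) = s - t := by ring
    have a2 : (-(s - n * (2 * h2))) - (-(t - n * (2 * h2))) = -(s - t) := by ring
    rw [a1] at k1
    rw [a2, abs_neg] at k2
    have b1 := abs_le.mp k1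
    have b2 := abs_le.mp k2
    have h5 : 0 ≤ 2 * M / (h2 - 3/2) ^ (1/50:ℝ) * |s - t| ^ (1/50:ℝ) := by positivity
    rw [add_mul]
    rw [abs_le]
    constructor <;> linarith [b1.1, b1.2, b2.1, b2.2]

end Pool.Agent.Helper606.CA
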