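import Pool.Agent.Helper606.CA2.Defs
import Pool.Agent.Helper606.CA3.P_dkap_holder
import Pool.Agent.Helper606.CA2.P_no_caustic2
import Pool.Agent.Helper606.CA.P_tab_table
import Pool.Agent.Helper606.CA.P_tab_curve
import Pool.Agent.Helper606.CA2.P_kap2_closed
import Pool.Agent.Helper606.CA2.P_kap2_c1

set_option autoImplicit false

namespace Pool.Agent.Helper606.CA
open Complex Set

theorem main3 : ∃ (T : Set ℂ) (γ : ℝ → ℂ) (ψ κ : ℝ → ℝ) (L : ℝ), IsTable T ∧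
    BoundaryCurve T γ ψ κ L ∧ (∀ s, 0 < κ s) ∧ ContDiff ℝ 1 κ ∧
    (∃ K : ℝ, ∀ s t : ℝ, |deriv κ s - deriv κ t| ≤ K * |s - t| ^ (1/50:ℝ)) ∧
    ∀ C : Set ℂ, ¬ IsConvexCaustic T γ ψ C :=
  ⟨Tab kap2, gam kap2, psi kap2, kap2, 2 * (2 * h2), tab_table kap2_closed,
    tab_curve kap2_closed, kap2_closed.pos, kap2_c1, dkap_holder, no_caustic2⟩

end Pool.Agent.Helper606.CA
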